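import Pool.Agent.Work.MP_49e099_an.CI.Main
import Pool.Agent.Work.MP_49e099_an.CI.E1
import Pool.Agent.Work.MP_49e099_an.CI.E2

/-! The exact answer to the multiplicity question: infinitely many weak solutions for small `lam`
outside principal resonance, none but `0` at principal resonance; resonance does not occur below
the first eigenvalue `l1` and occurs at `c = l1`, `f ≥ 0`. -/

namespace Pool.Agent.Results.MP_49e099_an.Dichotomy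

open MeasureTheory Pool.Agent.Work.MP_49e099_an

theorem result (N : ℕ) (hN : 2 ≤ N) (s a : ℝ) (hs : 1 / 2 < s) (hs1 : s < 1) (ha : 0 < a)
    (Ω : Set (EuclideanSpace ℝ (Fin N))) (ho : IsOpen Ω) (hb : Bornology.IsBounded Ω)
    (hne : Ω.Nonempty) (hC : C1Bdry Ω) :
    ∃ l1 : ℝ, 0 < l1 ∧ ∀ (m μ1 : ℝ) (c μ f : EuclideanSpace ℝ (Fin N) → ℝ), N / (2 * s) < m →
      MemLp f (ENNReal.ofReal m) (volume.restrict Ω) → MemLp c ⊤ (volume.restrict Ω) →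
      MemLp μ ⊤ (volume.restrict Ω) → 0 < μ1 → (∀ᵐ x, x ∈ Ω → μ1 ≤ μ x) →
      (¬ Res N a s Ω c f →
        ∃ lam0 : ℝ, 0 < lam0 ∧ ∀ lam, 0 < lam → lam < lam0 → Many N a s Ω c μ f lam) ∧
      (Res N a s Ω c f → ∀ lam : ℝ, 0 < lam → ∀ u, InW0 N s Ω u →
        IsWeakSol N a s Ω c μ f lam u → ∀ᵐ x, u x = 0) ∧
      ((∀ᵐ x, x ∈ Ω → c x ≤ l1) → (¬ ∀ᵐ x, x ∈ Ω → c x = l1) → ¬ Res N a s Ω c f) ∧
      ((∀ᵐ x, x ∈ Ω → c x = l1) → (∀ᵐ x, x ∈ Ω → 0 ≤ f x) → Res N a s Ω c f) := by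
  have hp : Par N a s := ⟨hN, hs, hs1, ha⟩
  have hΩ : Dom Ω := ⟨ho, hb⟩
  obtain ⟨l1, hl, h1, h2⟩ := exists_lam1 hp hΩ hne
  obtain ⟨c0, -, hd⟩ := dichotomy hp hΩ hne hC
  refine ⟨l1, hl, fun m μ1 c μ f hm hf hc hμ h0 hμ1 => ?_⟩
  obtain ⟨-, hA, hB⟩ := hd m μ1 c μ f hm hf hc hμ h0 hμ1
  refine ⟨hA, hB, fun hle hn => strict hp hΩ h1 hc hle hn, fun he hf0 => ?_⟩
  have hfe : ∀ᵐ x ∂volume.restrict Ω, f x = hf.1.mk f x := hf.1.ae_eq_mk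
  have hce : ∀ᵐ x ∂volume.restrict Ω, c x = (fun _ => l1) x :=
    (ae_restrict_iff' ho.measurableSet).2 he
  refine (res_congr hce hfe).2 (res_lam1 hp hΩ hm h1 h2 hf.1.measurable_mk
    (hf.ae_eq hfe) ?_)
  filter_upwards [hf0, (ae_restrict_iff' ho.measurableSet).1 hfe] with x hx hx' hxΩ
  rw [← hx' hxΩ]
  exact hx hxΩ

end Pool.Agent.Results.MP_49e099_an.Dichotomy
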