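import Pool.Agent.Work.MP_49e099_an.Main

/-! On the unit ball there is a bounded continuous `c > 0` for which the problem with `μ > 0` and
`f ≥ 0` has no weak solution other than `u = 0`, which needs `f = 0`. -/

namespace Pool.Agent.Results.MP_49e099_an.Resonance

open MeasureTheory Metric Pool.Agent.Work.MP_49e099_an

theorem result (N : ℕ) (hN : 1 ≤ N) (s a : ℝ) (h0 : 0 < s) (h1 : s < 1) (ha : 0 < a) :
    ∃ c : EuclideanSpace ℝ (Fin N) → ℝ, Continuous c ∧ (∃ M, ∀ x, |c x| ≤ M) ∧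
      (∀ x ∈ ball (0 : EuclideanSpace ℝ (Fin N)) 1, 0 < c x) ∧
      OnlyZero N a s (ball 0 1) c := by
  have : Nonempty (Fin N) := ⟨⟨0, hN⟩⟩
  have h := main (E := EuclideanSpace ℝ (Fin N)) h0 h1 ha
  rwa [finrank_euclideanSpace_fin] at h

end Pool.Agent.Results.MP_49e099_an.Resonance
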